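import Pool.Agent.H7.GT.Stmts

/-!
Row TCT of board gt7: the number of `t`-cliques of the Turán graph.
-/

set_option autoImplicit false

open Finset

namespace Pool.GT7

/-- the sizes of the classes -/
def tctn (R a r : ℕ) : Fin R → ℕ := fun i => if i.1 < r then a + 1 else a

theorem tct_sum (R a r : ℕ) (hr : r ≤ R) : ∑ i, tctn R a r i = R * a + r := by
  have h1 : ∀ i : Fin R, tctn R a r i = a + if i.1 < r then 1 else 0 := by
    intro i
    unfold tctn
    split_ifs <;> rfl
  rw [Finset.sum_congr rfl fun i _ => h1 i, Finset.sum_add_distrib, Finset.sum_const,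
    Finset.card_univ, Fintype.card_fin, smul_eq_mul]
  congr 1
  rw [Fin.sum_univ_eq_sum_range (fun i => if i < r then 1 else 0) R, ← Finset.sum_filter,
    Finset.sum_const, smul_eq_mul, mul_one]
  have h2 : (Finset.range R).filter (fun i => i < r) = Finset.range r := by
    ext i
    rw [Finset.mem_filter, Finset.mem_range, Finset.mem_range]
    omega
  rw [h2, Finset.card_range]

/-- the vertex with residue `i` and quotient `j - 1` -/
def tctF (R a r : ℕ) [NeZero (R * a + r)] (f : Fin R → ℕ) (i : Fin R) : Fin (R * a + r) :=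
  Fin.ofNat _ (i.1 + R * (f i - 1))

theorem tct_lt (R a r i j : ℕ) (hi : i < R) (h1 : 1 ≤ j)
    (hj : j ≤ if i < r then a + 1 else a) : i + R * (j - 1) < R * a + r := by
  split_ifs at hj with h
  · have : R * (j - 1) ≤ R * a := Nat.mul_le_mul_left _ (by omega)
    omega
  · have : R * (j - 1 + 1) ≤ R * a := Nat.mul_le_mul_left _ (by omega)
    rw [mul_add, mul_one] at this
    omega

theorem tct_count (R t a r : ℕ) [NeZero (R * a + r)] :
    ∑ I ∈ (univ : Finset (Fin R)).powersetCard t, ∏ i ∈ I, tctn R a r i ≤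
      {s : Finset (Fin (R * a + r)) |
        (SimpleGraph.turanGraph (R * a + r) R).IsNClique t s}.ncard := by
  classical
  obtain ⟨A, hA⟩ : ∃ A : Finset (Fin R) → Finset (Fin R → ℕ), ∀ I, A I =
      Fintype.piFinset fun i => if i ∈ I then Icc 1 (tctn R a r i) else {0} := ⟨_, fun _ => rfl⟩
  have hAm : ∀ I f, f ∈ A I ↔ ∀ i, (i ∈ I → 1 ≤ f i ∧ f i ≤ tctn R a r i) ∧
      (i ∉ I → f i = 0) := by
    intro I f
    rw [hA, Fintype.mem_piFinset]
    apply forall_congr'
    intro i
    split_ifs with h
    · rw [mem_Icc]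
      exact ⟨fun h1 => ⟨fun _ => h1, fun h2 => absurd h h2⟩, fun h1 => h1.1 h⟩
    · rw [mem_singleton]
      exact ⟨fun h1 => ⟨fun h2 => absurd h2 h, fun _ => h1⟩, fun h1 => h1.2 h⟩
  have hAc : ∀ I, (A I).card = ∏ i ∈ I, tctn R a r i := by
    intro I
    rw [hA, Fintype.card_piFinset]
    have h1 : ∀ i : Fin R, (if i ∈ I then Icc 1 (tctn R a r i) else {0}).card =
        if i ∈ I then tctn R a r i else 1 := by
      intro i
      split_ifs
      · rw [Nat.card_Icc, Nat.add_sub_cancel]
      · rfl
    rw [Finset.prod_congr rfl fun i _ => h1 i, Finset.prod_ite_mem, Finset.univ_inter]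
  have hsup : ∀ I f, f ∈ A I → I = univ.filter fun i => f i ≠ 0 := by
    intro I f hf
    rw [hAm] at hf
    ext i
    rw [mem_filter]
    constructor
    · intro hi
      have := (hf i).1 hi
      exact ⟨mem_univ _, by omega⟩
    · rintro ⟨-, hi⟩
      by_contra hcon
      exact hi ((hf i).2 hcon)
  have hdisj : ∀ I ∈ (univ : Finset (Fin R)).powersetCard t,
      ∀ J ∈ (univ : Finset (Fin R)).powersetCard t, I ≠ J → Disjoint (A I) (A J) := by
    intro I _ J _ hIJ
    rw [Finset.disjoint_left]
    intro f hI hJ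
    exact hIJ ((hsup I f hI).trans (hsup J f hJ).symm)
  have hsum : ∑ I ∈ (univ : Finset (Fin R)).powersetCard t, ∏ i ∈ I, tctn R a r i =
      (((univ : Finset (Fin R)).powersetCard t).biUnion A).card := by
    rw [Finset.card_biUnion hdisj]
    exact Finset.sum_congr rfl fun I _ => (hAc I).symm
  have hU : ∀ f ∈ ((univ : Finset (Fin R)).powersetCard t).biUnion A,
      (univ.filter fun i => f i ≠ 0).card = t ∧ ∀ i, f i ≠ 0 → f i ≤ tctn R a r i := by
    intro f hf
    rw [mem_biUnion] at hf
    obtain ⟨I, hI, hf⟩ := hf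
    rw [mem_powersetCard_univ] at hI
    rw [← hsup I f hf]
    refine ⟨hI, ?_⟩
    intro i hi
    rw [hAm] at hf
    by_cases h : i ∈ I
    · exact ((hf i).1 h).2
    · exact absurd ((hf i).2 h) hi
  have hFv : ∀ f ∈ ((univ : Finset (Fin R)).powersetCard t).biUnion A, ∀ i, f i ≠ 0 →
      (tctF R a r f i).1 = i.1 + R * (f i - 1) := by
    intro f hf i hi
    have h1 := (hU f hf).2 i hi
    exact Nat.mod_eq_of_lt (tct_lt R a r i.1 (f i) i.2 (by omega) h1)
  have hmod : ∀ f ∈ ((univ : Finset (Fin R)).powersetCard t).biUnion A, ∀ i, f i ≠ 0 →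
      (tctF R a r f i).1 % R = i.1 := by
    intro f hf i hi
    rw [hFv f hf i hi, Nat.add_mul_mod_self_left, Nat.mod_eq_of_lt i.2]
  rw [hsum, ← Set.ncard_coe_finset]
  refine Set.ncard_le_ncard_of_injOn
    (fun f => (univ.filter fun i => f i ≠ 0).image (tctF R a r f)) ?_ ?_ (Set.toFinite _)
  · intro f hf
    rw [mem_coe] at hf
    rw [Set.mem_ofPred_eq, SimpleGraph.isNClique_iff]
    refine ⟨?_, ?_⟩
    · intro u hu w hw hne
      rw [mem_coe, mem_image] at hu hw
      obtain ⟨i, hi, rfl⟩ := hu
      obtain ⟨j, hj, rfl⟩ := hw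
      rw [mem_filter] at hi hj
      show (tctF R a r f i).1 % R ≠ (tctF R a r f j).1 % R
      rw [hmod f hf i hi.2, hmod f hf j hj.2]
      intro h
      exact hne (by rw [Fin.ext h])
    · rw [card_image_of_injOn, (hU f hf).1]
      intro i hi j hj hij
      rw [mem_coe, mem_filter] at hi hj
      apply Fin.ext
      rw [← hmod f hf i hi.2, ← hmod f hf j hj.2]
      rw [hij]
  · have key : ∀ f ∈ ((univ : Finset (Fin R)).powersetCard t).biUnion A,
        ∀ g ∈ ((univ : Finset (Fin R)).powersetCard t).biUnion A,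
        (univ.filter fun i => f i ≠ 0).image (tctF R a r f) =
          (univ.filter fun i => g i ≠ 0).image (tctF R a r g) →
        ∀ i, f i ≠ 0 → g i = f i := by
      intro f hf g hg h i hi
      have h1 : tctF R a r f i ∈ (univ.filter fun i => g i ≠ 0).image (tctF R a r g) := by
        rw [← h]
        exact mem_image_of_mem _ (by rw [mem_filter]; exact ⟨mem_univ _, hi⟩)
      rw [mem_image] at h1
      obtain ⟨j, hj, hjf⟩ := h1
      rw [mem_filter] at hj
      have h2 : j = i := by
        apply Fin.ext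
        rw [← hmod g hg j hj.2, ← hmod f hf i hi, hjf]
      subst h2
      have h3 := congrArg Fin.val hjf
      rw [hFv g hg j hj.2, hFv f hf j hi] at h3
      have h4 : R * (g j - 1) = R * (f j - 1) := by omega
      have h5 := Nat.eq_of_mul_eq_mul_left (by have := j.2; omega) h4
      have := hj.2
      omega
    intro f hf g hg h
    rw [mem_coe] at hf hg
    simp only at h
    funext i
    by_cases hi : f i = 0
    · by_contra hcon
      have hgi : g i ≠ 0 := fun h0 => hcon (by rw [hi, h0])
      have h2 := key g hg f hf h.symm i hgi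
      exact hcon h2
    · exact (key f hf g hg h i hi).symm

theorem TCT_thm (hEST : ESTStmt) : TCTStmt := by
  intro p t a r hr
  have h1 : TT (p + 4) t a r =
      ∑ I ∈ (univ : Finset (Fin (p + 4))).powersetCard t, ∏ i ∈ I, tctn (p + 4) a r i := by
    rw [← hEST.1]
    refine ((hEST.2.1 (tctn (p + 4) a r) t a r ?_ (tct_sum _ _ _ (by omega))).1).symm
    intro i
    unfold tctn
    split_ifs
    · exact Or.inr rfl
    · exact Or.inl rfl
  rw [h1]
  by_cases h0 : (p + 4) * a + r = 0
  · have ha : a = 0 := by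
      by_contra hcon
      have : 0 < (p + 4) * a := Nat.mul_pos (by omega) (Nat.pos_of_ne_zero hcon)
      omega
    have hr0 : r = 0 := by omega
    subst ha
    subst hr0
    have h2 : ∀ I ∈ (univ : Finset (Fin (p + 4))).powersetCard t,
        ∏ i ∈ I, tctn (p + 4) 0 0 i = if t = 0 then 1 else 0 := by
      intro I hI
      rw [mem_powersetCard_univ] at hI
      split_ifs with ht
      · rw [ht, card_eq_zero] at hI
        rw [hI, prod_empty]
      · have hne : I.Nonempty := by
          rw [← card_pos]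
          omega
        obtain ⟨i, hi⟩ := hne
        exact prod_eq_zero hi (by unfold tctn; simp)
    rw [Finset.sum_congr rfl h2]
    split_ifs with ht
    · subst ht
      rw [powersetCard_zero, sum_singleton]
      rw [Nat.one_le_iff_ne_zero, ← Nat.pos_iff_ne_zero, Set.ncard_pos (Set.toFinite _)]
      exact ⟨∅, by rw [Set.mem_ofPred_eq, SimpleGraph.isNClique_iff]; simp⟩
    · simp
  · have : NeZero ((p + 4) * a + r) := ⟨h0⟩
    exact tct_count (p + 4) t a r

end Pool.GT7
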